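import Pool.Agent.H64.FT.C4
import Pool.Agent.H64.FT.E5
import Pool.Graph.R_pool_sql_team_seeded_35f281b4.K7.H90.AS.Main
import Pool.Graph.R_pool_sql_team_seeded_35f281b4.K7.H89.BS.E
import Pool.Graph.R_pool_sql_team_seeded_35f281b4.K7.H89.CL.D
import Pool.Graph.R_pool_sql_team_seeded_35f281b4.K7.H23.AT.PC
import Pool.Graph.R_pool_sql_team_seeded_35f281b4.K7.H23.AT.SF
import Pool.Graph.R_pool_sql_team_seeded_35f281b4.K7.H23.AT.Fin

/-!
# The uniform bound holds for almost all quadratic twists of every curve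

For every `n ≥ 3` there is a number `M`, which depends only on `n`, such that for **every** `f ∈ ℤ[X]`
of degree `n` without repeated roots and for all integers `D` outside a set of density zero all
integral points of the curve `y² = D f(x)`, and if `n` is odd also those of the quadratic twist
`y² = Dⁿ f(x / D)`, satisfy `|x| ≤ |D| ^ M`.  There is no condition on the factorisation of `f`; for
`n = 3` this concerns every elliptic curve over `ℚ`.

The new cases are the cubics with three rational roots (elliptic curves with full rational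
`2`-torsion) and the reducible quartics with an irreducible quadratic factor.
-/

set_option autoImplicit false

namespace Pool.Agent.Results.MP_d88658_nt.AlmostAllTwistsOfEveryCurve

open Polynomial Filter Topology

/-- The set `A` of integers has density zero: the number of the elements of `A` of absolute value at
most `N` divided by `N` tends to zero. -/
def DensityZero (A : Set ℤ) : Prop :=
  Tendsto (fun N : ℕ => (Set.ncard {D : ℤ | D ∈ A ∧ |D| ≤ N} : ℝ) / N) atTop (𝓝 0)

/-- The integers `D ≠ 0` such that the quadratic twist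
`y² = Dⁿ f(x / D) = ∑ aᵢ D^(n - i) xⁱ`, where `f = ∑ aᵢ Xⁱ` has degree `n`, of `y² = f(x)` has an
integral point with `|x| > |D| ^ M`. -/
def Large (f : ℤ[X]) (M : ℕ) : Set ℤ :=
  {D : ℤ | D ≠ 0 ∧ ∃ x y : ℤ, y ^ 2 = ∑ i ∈ Finset.range (f.natDegree + 1),
    f.coeff i * D ^ (f.natDegree - i) * x ^ i ∧ |D| ^ M < |x|}

/-- The integers `D ≠ 0` such that the curve `y² = D f(x)` has an integral point with
`|x| > |D| ^ M`. -/
def Large' (f : ℤ[X]) (M : ℕ) : Set ℤ :=
  {D : ℤ | D ≠ 0 ∧ ∃ x y : ℤ, y ^ 2 = D * f.eval x ∧ |D| ^ M < |x|}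

/-- **The uniform bound holds for almost all quadratic twists of every curve.** -/
theorem result (n : ℕ) (hn : 3 ≤ n) : ∃ M : ℕ, ∀ f : ℤ[X], f.natDegree = n →
    (f.map (Int.castRingHom ℚ)).Separable →
    (Odd n → DensityZero (Large f M)) ∧ DensityZero (Large' f M) := by
  have hfin : ∀ (f : ℤ[X]) (M : ℕ), Pool.Agent.K7.H23.AT.Dens0 (Pool.Agent.K7.H23.AT.Exc f M) →
      DensityZero (Large f M) := by
    intro f M h
    have h3 := h.tendsto
    have h4 : Pool.Agent.K7.H23.AT.Exc f M = Large f M := by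
      unfold Pool.Agent.K7.H23.AT.Exc Large
      simp only [Pool.Agent.K7.H23.AT.eval_scale]
    rw [h4] at h3
    exact h3
  rcases Nat.lt_or_ge 4 n with h5 | h5
  · obtain ⟨M, hM⟩ := Pool.Agent.K7.H23.AT.families Pool.Agent.K7.H90.AS.stAG
      (Pool.Agent.K7.H89.BS.bg2 (Pool.Agent.K7.H23.AT.pc Pool.Agent.K7.H89.CL.stCL)
        Pool.Agent.K7.H23.AT.sf) n hn
    refine ⟨M, fun f hdeg hsep => ?_⟩
    obtain ⟨h1, h2⟩ := hM f hdeg hsep (Or.inl h5)
    exact ⟨fun hodd => hfin f M (h1 hodd), h2.tendsto⟩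
  · rcases Nat.lt_or_ge 3 n with h3 | h3
    · have hn4 : n = 4 := by omega
      subst hn4
      obtain ⟨M, hM⟩ := Pool.Agent.H64.FT.all_quartics
      refine ⟨M, fun f hdeg hsep => ⟨fun hodd => absurd hodd (by decide), ?_⟩⟩
      exact (hM f hdeg hsep).tendsto
    · have hn3 : n = 3 := le_antisymm h3 hn
      subst hn3
      obtain ⟨M, hM⟩ := Pool.Agent.H64.FT.all_cubics
      refine ⟨M, fun f hdeg hsep => ?_⟩
      obtain ⟨h1, h2⟩ := hM f hdeg hsep
      exact ⟨fun _ => hfin f M h1, h2.tendsto⟩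

end Pool.Agent.Results.MP_d88658_nt.AlmostAllTwistsOfEveryCurve
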