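import Pool.Agent.H43.HL.Pencil

set_option autoImplicit false

/-!
# The constant `C₁(d)` in the uniform height bound is at least four, for every degree
-/

open Polynomial

namespace Pool.Agent.Results.MP_d88658_nt.ConstantAtLeastFour

/-- the largest absolute value of a coefficient -/
def height (f : ℤ[X]) : ℕ := f.support.sup fun i => (f.coeff i).natAbs

theorem coeff_le_height (f : ℤ[X]) (i : ℕ) : |(f.coeff i : ℝ)| ≤ height f := by
  have h : (f.coeff i).natAbs ≤ height f := by
    by_cases hi : i ∈ f.support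
    · exact Finset.le_sup (f := fun i => (f.coeff i).natAbs) hi
    · rw [notMem_support_iff.1 hi]; simp
  have h1 : ((f.coeff i).natAbs : ℝ) ≤ height f := by exact_mod_cast h
  rwa [Nat.cast_natAbs, Int.cast_abs] at h1

theorem height_le (f : ℤ[X]) (M : ℝ) (hM : 0 ≤ M) (h : ∀ i, |(f.coeff i : ℝ)| ≤ M) :
    (height f : ℝ) ≤ M := by
  have h1 : height f ≤ ⌊M⌋₊ := by
    refine Finset.sup_le fun i _ => Nat.le_floor ?_
    rw [Nat.cast_natAbs, Int.cast_abs]
    exact h i
  exact (Nat.cast_le.2 h1).trans (Nat.floor_le hM)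

theorem height_pencil (A B : ℤ[X]) (T : ℤ) (hT : T ≠ 0) :
    (height (A + C T * B) : ℝ) ≤ ((height A : ℝ) + height B + 1) * |(T : ℝ)| := by
  have hT1 : (1 : ℝ) ≤ |(T : ℝ)| := by
    have := Int.one_le_abs hT
    have h : ((1 : ℤ) : ℝ) ≤ ((|T| : ℤ) : ℝ) := by exact_mod_cast this
    simpa using h
  have hA : (0 : ℝ) ≤ height A := Nat.cast_nonneg _
  have hB : (0 : ℝ) ≤ height B := Nat.cast_nonneg _
  refine height_le _ _ (by positivity) fun i => ?_
  rw [coeff_add, coeff_C_mul]
  push_cast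
  refine (abs_add_le _ _).trans ?_
  rw [abs_mul]
  have h1 := coeff_le_height A i
  have h2 := coeff_le_height B i
  have h3 : |(T : ℝ)| * |(B.coeff i : ℝ)| ≤ |(T : ℝ)| * height B :=
    mul_le_mul_of_nonneg_left h2 (abs_nonneg _)
  nlinarith

/-- For every `d ≥ 3` there are a pencil `A + T B` of polynomials of degree `d` and infinitely many
integers `T` for which `y ^ 2 = A(x) + T B(x)` is separable and has an integral point with
`|x| ≥ c |T| ^ 4`; hence `C₁(d) ≥ 4`. -/
theorem result (d : ℕ) (hd : 3 ≤ d) :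
    (∃ A B : ℤ[X], A.natDegree ≤ d ∧ B.natDegree = d ∧ ∃ c : ℝ, 0 < c ∧
      {T : ℤ | (A + C T * B).natDegree = d ∧
        ((A + C T * B).map (Int.castRingHom ℚ)).Separable ∧
        ∃ x y : ℤ, y ^ 2 = (A + C T * B).eval x ∧ c * |(T : ℝ)| ^ 4 ≤ |(x : ℝ)|}.Infinite) ∧
    ∀ C₁ C₂ : ℝ, (∀ f : ℤ[X], f.natDegree = d → (f.map (Int.castRingHom ℚ)).Separable →
      ∀ x y : ℤ, y ^ 2 = f.eval x →
        Real.log (max |(x : ℝ)| 1) ≤ C₁ * Real.log (max (height f : ℝ) 1) + C₂) → 4 ≤ C₁ := by
  have main : ∃ A B : ℤ[X], A.natDegree ≤ d ∧ B.natDegree = d ∧ ∃ c : ℝ, 0 < c ∧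
      {T : ℤ | (A + C T * B).natDegree = d ∧
        ((A + C T * B).map (Int.castRingHom ℚ)).Separable ∧
        ∃ x y : ℤ, y ^ 2 = (A + C T * B).eval x ∧ c * |(T : ℝ)| ^ 4 ≤ |(x : ℝ)|}.Infinite := by
    obtain ⟨A, B, hcop, hA, hB, q, r, t, κ, hκ, h⟩ := Pool.Agent.H43.HL.pencil d (by omega)
    refine ⟨A, B, hA, hB, 1 / 8, by norm_num, ?_⟩
    set L : ℤ := 2 * (|q| + |r| + |t|) with hL
    -- the bad values
    have f1 : {T : ℤ | ¬ ((A + C T * B).map (Int.castRingHom ℚ)).Separable}.Finite := by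
      have h1 := Pool.Agent.H43.HL.bad_finite hcop (by
        rw [natDegree_map_eq_of_injective Int.cast_injective, hB]; omega)
      refine Set.Finite.subset (h1.preimage (f := fun T : ℤ => (T : ℚ))
        (Int.cast_injective.injOn)) ?_
      intro T hT
      rw [Set.mem_preimage, Set.mem_ofPred_eq]
      rw [Set.mem_ofPred_eq, Polynomial.map_add, Polynomial.map_mul, map_C] at hT
      exact hT
    have f2 : {T : ℤ | (A + C T * B).natDegree ≠ d}.Finite := by
      refine Set.Subsingleton.finite ?_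
      have key : ∀ T : ℤ, (A + C T * B).natDegree ≠ d → A.coeff d + T * B.coeff d = 0 := by
        intro T hT
        by_contra hne
        apply hT
        refine le_antisymm ((natDegree_add_le _ _).trans (max_le hA
          ((natDegree_C_mul_le _ _).trans hB.le))) (le_natDegree_of_ne_zero ?_)
        rw [coeff_add, coeff_C_mul]; exact hne
      intro T hT T' hT'
      have e1 := key T hT
      have e2 := key T' hT'
      have hBd : B.coeff d ≠ 0 := by
        rw [← hB, coeff_natDegree, leadingCoeff_ne_zero]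
        rintro rfl
        simp at hB
        omega
      have e3 : (T - T') * B.coeff d = 0 := by linear_combination e1 - e2
      rcases mul_eq_zero.1 e3 with h | h
      · linarith
      · exact absurd h hBd
    have f3 : {T : ℤ | |T| ≤ L}.Finite := by
      refine (Set.finite_Icc (-L) L).subset fun T hT => ?_
      exact abs_le.1 hT
    have finj : Function.Injective fun m : ℕ => κ * (m : ℤ) ^ 2 := by
      intro m n hmn
      have h1 : (m : ℤ) ^ 2 = (n : ℤ) ^ 2 := mul_left_cancel₀ hκ hmn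
      have h2 : m ^ 2 = n ^ 2 := by exact_mod_cast h1
      exact Nat.pow_left_injective (n := 2) (by norm_num) h2
    intro hfin
    have hall : (Set.univ : Set ℕ).Finite := by
      have h5 := ((f1.union f2).union f3).union hfin
      refine (h5.preimage (f := fun m : ℕ => κ * (m : ℤ) ^ 2) finj.injOn).subset ?_
      intro m _
      rw [Set.mem_preimage]
      have hm := h m
      set T : ℤ := κ * (m : ℤ) ^ 2 with hT
      clear_value T
      by_cases g1 : T ∈ {T : ℤ | ¬ ((A + C T * B).map (Int.castRingHom ℚ)).Separable}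
      · exact Or.inl (Or.inl (Or.inl g1))
      by_cases g2 : T ∈ {T : ℤ | (A + C T * B).natDegree ≠ d}
      · exact Or.inl (Or.inl (Or.inr g2))
      by_cases g3 : T ∈ {T : ℤ | |T| ≤ L}
      · exact Or.inl (Or.inr g3)
      refine Or.inr ⟨?_, ?_, ?_⟩
      · by_contra hne; exact g2 hne
      · by_contra hne; exact g1 hne
      · obtain ⟨y, hy⟩ := hm
        refine ⟨T * (T - q) * ((T - r) * (T - t)), y, hy, ?_⟩
        have g4 : L < |T| := by
          by_contra hle; exact g3 (not_lt.1 hle)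
        have g5 : ∀ s : ℤ, |s| ≤ |q| + |r| + |t| → (1 / 2 : ℝ) * |(T : ℝ)| ≤ |((T - s : ℤ) : ℝ)| := by
          intro s hs
          have h1 : |T| - |s| ≤ |T - s| := abs_sub_abs_le_abs_sub T s
          have h2 : |T| ≤ 2 * |T - s| := by linarith
          have h3 : ((|T| : ℤ) : ℝ) ≤ ((2 * |T - s| : ℤ) : ℝ) := by exact_mod_cast h2
          rw [Int.cast_mul, Int.cast_abs, Int.cast_abs] at h3
          push_cast at h3 ⊢
          linarith
        have hq := g5 q (by have := abs_nonneg r; have := abs_nonneg t; linarith)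
        have hr := g5 r (by have := abs_nonneg q; have := abs_nonneg t; linarith)
        have ht := g5 t (by have := abs_nonneg q; have := abs_nonneg r; linarith)
        have hT0 : (0 : ℝ) ≤ |(T : ℝ)| := abs_nonneg _
        rw [Int.cast_mul, Int.cast_mul, Int.cast_mul (T - r), abs_mul, abs_mul, abs_mul (_ : ℝ)
          ((T - t : ℤ) : ℝ)]
        calc 1 / 8 * |(T : ℝ)| ^ 4 = |(T : ℝ)| * (1 / 2 * |(T : ℝ)|) *
              ((1 / 2 * |(T : ℝ)|) * (1 / 2 * |(T : ℝ)|)) := by ring
          _ ≤ |(T : ℝ)| * |((T - q : ℤ) : ℝ)| * (|((T - r : ℤ) : ℝ)| * |((T - t : ℤ) : ℝ)|) := by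
            gcongr
    exact Set.infinite_univ hall
  refine ⟨main, ?_⟩
  obtain ⟨A, B, -, -, c, hc, hinf⟩ := main
  intro C₁ C₂ hb
  by_contra hlt
  rw [not_le] at hlt
  set D := max C₁ 0 with hD
  have hD4 : D < 4 := max_lt hlt (by norm_num)
  have hD0 : 0 ≤ D := le_max_right _ _
  set H : ℝ := (height A : ℝ) + height B + 1 with hH
  have hH1 : 1 ≤ H := by
    have h1 : (0 : ℝ) ≤ height A := Nat.cast_nonneg _
    have h2 : (0 : ℝ) ≤ height B := Nat.cast_nonneg _
    linarith
  have key : ∀ T ∈ {T : ℤ | (A + C T * B).natDegree = d ∧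
        ((A + C T * B).map (Int.castRingHom ℚ)).Separable ∧
        ∃ x y : ℤ, y ^ 2 = (A + C T * B).eval x ∧ c * |(T : ℝ)| ^ 4 ≤ |(x : ℝ)|}, T ≠ 0 →
      Real.log |(T : ℝ)| ≤ (C₂ + D * Real.log H - Real.log c) / (4 - D) := by
    rintro T ⟨h1, h2, x, y, hy, hx⟩ hT
    have hT1 : (1 : ℝ) ≤ |(T : ℝ)| := by
      have := Int.one_le_abs hT
      have h : ((1 : ℤ) : ℝ) ≤ ((|T| : ℤ) : ℝ) := by exact_mod_cast this
      simpa using h
    have hT0 : (0 : ℝ) < |(T : ℝ)| := by linarith
    have h3 := hb _ h1 h2 x y hy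
    have h4 : Real.log c + 4 * Real.log |(T : ℝ)| ≤ Real.log (max |(x : ℝ)| 1) := by
      have : Real.log (c * |(T : ℝ)| ^ 4) = Real.log c + 4 * Real.log |(T : ℝ)| := by
        rw [Real.log_mul hc.ne' (pow_ne_zero 4 hT0.ne'), Real.log_pow]
        norm_num
      rw [← this]
      exact Real.log_le_log (by positivity) (hx.trans (le_max_left _ _))
    have h5 : Real.log (max (height (A + C T * B) : ℝ) 1) ≤ Real.log H + Real.log |(T : ℝ)| := by
      rw [← Real.log_mul (by linarith) hT0.ne']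
      refine Real.log_le_log (by positivity) (max_le (height_pencil A B T hT) ?_)
      nlinarith
    have h6 : 0 ≤ Real.log (max (height (A + C T * B) : ℝ) 1) := Real.log_nonneg (le_max_right _ _)
    have h7 : C₁ * Real.log (max (height (A + C T * B) : ℝ) 1) ≤
        D * (Real.log H + Real.log |(T : ℝ)|) := by
      calc C₁ * Real.log (max (height (A + C T * B) : ℝ) 1)
          ≤ D * Real.log (max (height (A + C T * B) : ℝ) 1) :=
            mul_le_mul_of_nonneg_right (le_max_left _ _) h6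
        _ ≤ D * (Real.log H + Real.log |(T : ℝ)|) := mul_le_mul_of_nonneg_left h5 hD0
    rw [le_div_iff₀ (by linarith)]
    nlinarith
  set E : ℝ := Real.exp ((C₂ + D * Real.log H - Real.log c) / (4 - D)) with hE
  apply hinf
  refine (Set.finite_Icc (-(⌈E⌉ : ℤ)) ⌈E⌉).subset fun T hT => ?_
  rw [Set.mem_Icc, ← abs_le]
  by_cases hT0 : T = 0
  · rw [hT0, abs_zero]
    exact Int.ceil_nonneg (Real.exp_pos _).le
  · have h1 := key T hT hT0
    have h2 : |(T : ℝ)| ≤ E := by
      have h3 : (0 : ℝ) < |(T : ℝ)| := abs_pos.2 (by exact_mod_cast hT0)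
      rw [hE, ← Real.log_le_iff_le_exp h3]; exact h1
    have h4 : ((|T| : ℤ) : ℝ) ≤ (⌈E⌉ : ℤ) := by
      rw [Int.cast_abs]; exact h2.trans (Int.le_ceil _)
    exact_mod_cast h4

end Pool.Agent.Results.MP_d88658_nt.ConstantAtLeastFour
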