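import Mathlib

/-!
# The constant `C₁(3)` in the uniform height bound is at least 13/2

For every integer `k ≥ 1` the cubic
`f_k = 2 k x ^ 3 + (2 - 243 k ^ 2) x ^ 2 - 486 k x + (29160 k ^ 2 + 1)`
has no repeated root, its largest coefficient is `M = 29160 k ^ 2 + 1`, and `y ^ 2 = f_k(x)` has an
integral point `(X k, Y k)`, where `X` and `Y` are polynomials of degree `13` and `20`. So
`x` is larger than a constant times `M ^ (13 / 2)`.

Origin of the identity. With `T = 27 k` the curve is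
`y ^ 2 = (2/27) T x ^ 3 + (2 - T ^ 2 / 3) x ^ 2 - 18 T x + 1 + 40 T ^ 2`, a rational elliptic surface
over the `T`-line, and `R = (6 T, 1 + 2 T ^ 2)` is a point on it. The point `3 R` has its only pole
at `T = ∞`: the polynomial which vanishes where `3 R = 0` is a constant for this `R`. So `3 R` has
polynomial coordinates; they are `X (T / 27)` and `Y (T / 27)`.
-/

set_option autoImplicit false

open Polynomial

namespace Pool.Agent.Results.MP_d88658_nt.CubicConstantThirteenHalves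

/-- the largest absolute value of a coefficient of `f` -/
def height (f : ℤ[X]) : ℕ := f.support.sup (fun i => (f.coeff i).natAbs)

lemma height_eq {f : ℤ[X]} {M n : ℕ} (h1 : ∀ i, (f.coeff i).natAbs ≤ M)
    (h2 : (f.coeff n).natAbs = M) (hM : M ≠ 0) : height f = M := by
  apply le_antisymm
  · exact Finset.sup_le fun i _ => h1 i
  · have hn : n ∈ f.support := by
      rw [mem_support_iff]
      intro h
      rw [h] at h2
      exact hM h2.symm
    have := Finset.le_sup (f := fun i => (f.coeff i).natAbs) hn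
    simp only [h2] at this
    exact this

/-- separability, from the absence of a common root in `ℂ` -/
lemma separable_of {f : ℤ[X]} (h : ∀ α : ℂ, aeval α f = 0 → aeval α (derivative f) ≠ 0) :
    (f.map (Int.castRingHom ℚ)).Separable := by
  unfold Separable
  refine (Polynomial.isCoprime_iff_aeval_ne_zero_of_isAlgClosed (k := ℚ) ℂ _ _).2 ?_
  intro α
  have e1 : aeval α (f.map (Int.castRingHom ℚ)) = aeval α f := by
    rw [aeval_def, aeval_def, eval₂_map]
    congr 1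
  have e2 : aeval α (derivative (f.map (Int.castRingHom ℚ))) = aeval α (derivative f) := by
    rw [derivative_map, aeval_def, aeval_def, eval₂_map]
    congr 1
  rw [e1, e2]
  by_cases h0 : aeval α f = 0
  · exact Or.inr (h α h0)
  · exact Or.inl h0

/-- the cubic `f_k` -/
noncomputable def f (k : ℕ) : ℤ[X] :=
  C (2 * (k : ℤ)) * X ^ 3 + C (2 - 243 * (k : ℤ) ^ 2) * X ^ 2 + C (-(486 * (k : ℤ))) * X +
    C (29160 * (k : ℤ) ^ 2 + 1)

lemma natDegree_f {k : ℕ} (hk : 1 ≤ k) : (f k).natDegree = 3 := by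
  have : 2 * (k : ℤ) ≠ 0 := by omega
  exact natDegree_cubic this

lemma coeff_f (k n : ℕ) : (f k).coeff n = (if n = 3 then 2 * (k : ℤ) else 0) +
    (if n = 2 then 2 - 243 * (k : ℤ) ^ 2 else 0) +
    (if n = 1 then -(486 * (k : ℤ)) else 0) +
      (if n = 0 then 29160 * (k : ℤ) ^ 2 + 1 else 0) := by
  unfold f
  rw [coeff_add, coeff_add, coeff_add, coeff_C_mul, coeff_C_mul, coeff_C_mul, coeff_X_pow,
    coeff_X_pow, coeff_X, coeff_C]
  simp only [mul_ite, mul_one, mul_zero, eq_comm (a := 1) (b := n)]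

lemma height_f {k : ℕ} (hk : 1 ≤ k) : height (f k) = 29160 * k ^ 2 + 1 := by
  have hT : (k : ℤ) ^ 2 = ((k ^ 2 : ℕ) : ℤ) := by push_cast; rfl
  have h1 : k ≤ k ^ 2 := Nat.le_self_pow (by norm_num) k
  have h2 : 1 ≤ k ^ 2 := Nat.one_le_pow _ _ hk
  refine height_eq (n := 0) ?_ ?_ (by omega)
  · intro i
    rw [coeff_f, hT]
    generalize k ^ 2 = T at *
    split_ifs <;> omega
  · rw [coeff_f, hT]
    generalize k ^ 2 = T
    simp only [if_true]
    norm_num
    omega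

lemma le_height {k : ℕ} (hk : 1 ≤ k) : k ≤ height (f k) := by
  rw [height_f hk]
  nlinarith

lemma separable_f {k : ℕ} (hk : 1 ≤ k) : ((f k).map (Int.castRingHom ℚ)).Separable := by
  apply separable_of
  intro α h1 h2
  have e1 : aeval α (f k) = 2 * (k : ℂ) * α ^ 3 + (2 - 243 * (k : ℂ) ^ 2) * α ^ 2 +
      -(486 * (k : ℂ)) * α + (29160 * (k : ℂ) ^ 2 + 1) := by
    unfold f
    simp [map_ofNat]
  have e2 : aeval α (derivative (f k)) = 3 * (2 * (k : ℂ)) * α ^ 2 +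
      2 * (2 - 243 * (k : ℂ) ^ 2) * α + -(486 * (k : ℂ)) := by
    unfold f
    rw [derivative_add, derivative_add, derivative_add, derivative_C_mul_X_pow,
      derivative_C_mul_X_pow, derivative_C_mul_X, derivative_C]
    simp [map_ofNat]
    ring
  rw [e1] at h1
  rw [e2] at h2
  generalize hτ : (k : ℂ) = τ at *
  have h3 : (6 * (2 * τ) * (-(486 * τ)) - 2 * (2 - 243 * τ ^ 2) ^ 2) * α +
      (9 * (2 * τ) * (29160 * τ ^ 2 + 1) - (2 - 243 * τ ^ 2) * (-(486 * τ))) = 0 := by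
    linear_combination (9 * (2 * τ)) * h1 - (3 * (2 * τ) * α + (2 - 243 * τ ^ 2)) * h2
  have h4 : 18 * τ * (1673656512480 * τ ^ 8 + 4821232752 * τ ^ 6 + 5038848 * τ ^ 4 -
      11772 * τ ^ 2 - 32) = 0 := by
    have h5 : -((6 * (2 * τ) * (-(486 * τ)) - 2 * (2 - 243 * τ ^ 2) ^ 2) ^ 2 *
        (3 * (2 * τ) * α ^ 2 + 2 * (2 - 243 * τ ^ 2) * α + -(486 * τ))) = 0 := by
      rw [h2]
      ring
    linear_combination h5 + (3 * (2 * τ) * ((6 * (2 * τ) * (-(486 * τ)) -
      2 * (2 - 243 * τ ^ 2) ^ 2) * α - (9 * (2 * τ) * (29160 * τ ^ 2 + 1) -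
      (2 - 243 * τ ^ 2) * (-(486 * τ)))) + 2 * (2 - 243 * τ ^ 2) *
      (6 * (2 * τ) * (-(486 * τ)) - 2 * (2 - 243 * τ ^ 2) ^ 2)) * h3
  rw [← hτ] at h4
  have h5 : 18 * (k : ℤ) * (1673656512480 * (k : ℤ) ^ 8 + 4821232752 * (k : ℤ) ^ 6 +
      5038848 * (k : ℤ) ^ 4 - 11772 * (k : ℤ) ^ 2 - 32) = 0 := by
    exact_mod_cast h4
  have hk1 : (1 : ℤ) ≤ k := by exact_mod_cast hk
  have h6 : (1 : ℤ) ≤ (k : ℤ) ^ 2 := by nlinarith
  have h7 : (k : ℤ) ^ 2 ≤ (k : ℤ) ^ 4 := by nlinarith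
  have h8 : 0 < (k : ℤ) ^ 8 := by positivity
  have h9 : 0 < (k : ℤ) ^ 6 := by positivity
  have h10 : 0 < 1673656512480 * (k : ℤ) ^ 8 + 4821232752 * (k : ℤ) ^ 6 +
      5038848 * (k : ℤ) ^ 4 - 11772 * (k : ℤ) ^ 2 - 32 := by linarith
  have h11 : 0 < 18 * (k : ℤ) := by linarith
  have h12 := mul_pos h11 h10
  linarith

/-- the first coordinate of the point -/
def X₁ (k : ℤ) : ℤ := 19212113318015887488 * k ^ 13 + 79062194724345216 * k ^ 11 +
  135566177510880 * k ^ 9 - 43391094768 * k ^ 7 - 510183360 * k ^ 5 - 533628 * k ^ 3 + 2 * k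

/-- the second coordinate of the point -/
def Y₁ (k : ℤ) : ℤ := 119090661382226042245919066112 * k ^ 20 +
  735127539396457050900734976 * k ^ 18 + 2016810807672035804940288 * k ^ 16 +
  1671453858667382211456 * k ^ 14 - 5218104851806784256 * k ^ 12 - 16023922181786016 * k ^ 10 -
  14523619291632 * k ^ 8 + 9948575520 * k ^ 6 + 28159812 * k ^ 4 + 14098 * k ^ 2 + 1

lemma identity (k : ℤ) : Y₁ k ^ 2 =
    2 * k * X₁ k ^ 3 + (2 - 243 * k ^ 2) * X₁ k ^ 2 + -(486 * k) * X₁ k + (29160 * k ^ 2 + 1) := by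
  unfold X₁ Y₁
  ring

/-- the integral point -/
lemma point (k : ℕ) : (Y₁ k) ^ 2 = (f k).eval (X₁ k) := by
  rw [identity]
  unfold f
  simp only [eval_add, eval_mul, eval_pow, eval_C, eval_X]

/-- the points are large -/
lemma large {k : ℕ} (hk : 1 ≤ k) :
    0 < X₁ k ∧ (height (f k) : ℤ) ^ 13 ≤ 10 ^ 20 * X₁ k ^ 2 := by
  rw [height_f hk]
  push_cast
  have hk1 : (1 : ℤ) ≤ k := by exact_mod_cast hk
  generalize (k : ℤ) = K at *
  have hK : 0 < K := by linarith
  have e3 : K ^ 3 ≤ K ^ 11 := pow_le_pow_right₀ hk1 (by norm_num)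
  have e5 : K ^ 5 ≤ K ^ 11 := pow_le_pow_right₀ hk1 (by norm_num)
  have e7 : K ^ 7 ≤ K ^ 11 := pow_le_pow_right₀ hk1 (by norm_num)
  have e9 : 0 < K ^ 9 := by positivity
  have e11 : 0 < K ^ 11 := by positivity
  have e13 : 0 < K ^ 13 := by positivity
  have hX : 19212113318015887488 * K ^ 13 ≤ X₁ K := by
    unfold X₁
    linarith
  refine ⟨by linarith, ?_⟩
  have h1 : (29160 * K ^ 2 + 1) ^ 13 ≤ (29161 * K ^ 2) ^ 13 := by
    apply pow_le_pow_left₀ (by positivity)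
    nlinarith
  have h2 : (19212113318015887488 * K ^ 13) ^ 2 ≤ X₁ K ^ 2 :=
    pow_le_pow_left₀ (by positivity) hX 2
  have h3 : (0 : ℤ) < K ^ 26 := by positivity
  calc (29160 * K ^ 2 + 1) ^ 13 ≤ (29161 * K ^ 2) ^ 13 := h1
    _ = 29161 ^ 13 * K ^ 26 := by ring
    _ ≤ 10 ^ 20 * 19212113318015887488 ^ 2 * K ^ 26 :=
      mul_le_mul_of_nonneg_right (by norm_num) h3.le
    _ = 10 ^ 20 * (19212113318015887488 * K ^ 13) ^ 2 := by ring
    _ ≤ 10 ^ 20 * X₁ K ^ 2 := by linarith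

/-- **The constant `C₁(3)` is at least 13/2.**
(1) For every integer `k ≥ 1` the cubic
`f k = 2 k x ^ 3 + (2 - 243 k ^ 2) x ^ 2 - 486 k x + (29160 k ^ 2 + 1)` has degree `3` and no
repeated root, its largest coefficient is `M = 29160 k ^ 2 + 1`, and `y ^ 2 = f k (x)` has the
integral point `(X₁ k, Y₁ k)`, with `X₁`, `Y₁` the polynomials above, of degree `13` and `20`;
moreover `X₁ k > 0` and `M ^ 13 ≤ 10 ^ 20 * (X₁ k) ^ 2`.
(2) Hence, if the uniform height bound of the problem holds for the degree `3` with the constants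
`C₁` and `C₂`, then `C₁ ≥ 13 / 2`. -/
theorem result :
    (∀ k : ℕ, 1 ≤ k → (f k).natDegree = 3 ∧ ((f k).map (Int.castRingHom ℚ)).Separable ∧
      height (f k) = 29160 * k ^ 2 + 1 ∧ (Y₁ k) ^ 2 = (f k).eval (X₁ k) ∧ 0 < X₁ k ∧
        (height (f k) : ℤ) ^ 13 ≤ 10 ^ 20 * X₁ k ^ 2) ∧
    (∀ C₁ C₂ : ℝ, (∀ f : ℤ[X], f.natDegree = 3 → (f.map (Int.castRingHom ℚ)).Separable →
      ∀ x y : ℤ, y ^ 2 = f.eval x →
        Real.log (max |(x : ℝ)| 1) ≤ C₁ * Real.log (max (height f : ℝ) 1) + C₂) →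
      13 / 2 ≤ C₁) := by
  have main : ∀ k : ℕ, 1 ≤ k → (f k).natDegree = 3 ∧
      ((f k).map (Int.castRingHom ℚ)).Separable ∧
      height (f k) = 29160 * k ^ 2 + 1 ∧ (Y₁ k) ^ 2 = (f k).eval (X₁ k) ∧ 0 < X₁ k ∧
        (height (f k) : ℤ) ^ 13 ≤ 10 ^ 20 * X₁ k ^ 2 := by
    intro k hk
    exact ⟨natDegree_f hk, separable_f hk, height_f hk, point k, (large hk).1, (large hk).2⟩
  refine ⟨main, ?_⟩
  intro C₁ C₂ h
  by_contra hC
  push Not at hC
  obtain ⟨K, hK⟩ := exists_nat_gt (Real.exp ((C₂ + Real.log (10 ^ 20) / 2) / (13 / 2 - C₁)))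
  obtain ⟨hfd, hfs, hfM, hxy, hx0, hx⟩ := main (K + 1) (by omega)
  have h1 := h (f (K + 1)) hfd hfs _ _ hxy
  have hfK : K + 1 ≤ height (f (K + 1)) := le_height (by omega)
  generalize X₁ ((K + 1 : ℕ) : ℤ) = x at *
  generalize f (K + 1) = g at *
  have hM : (1 : ℝ) ≤ height g := by
    have : 1 ≤ height g := by omega
    exact_mod_cast this
  have hM0 : (0 : ℝ) < height g := by linarith
  have hx' : (height g : ℝ) ^ 13 ≤ (10 ^ 20 : ℝ) * (x : ℝ) ^ 2 := by
    have h3 := (Int.cast_le (R := ℝ)).2 hx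
    simp only [Int.cast_pow, Int.cast_mul, Int.cast_natCast, Int.cast_ofNat] at h3
    exact h3
  have hx0' : (0 : ℝ) < x := by exact_mod_cast hx0
  have h2 : 13 * Real.log (height g) ≤ Real.log (10 ^ 20) + 2 * Real.log x := by
    have h3 : Real.log ((height g : ℝ) ^ 13) ≤ Real.log ((10 ^ 20 : ℝ) * (x : ℝ) ^ 2) :=
      Real.log_le_log (by positivity) hx'
    rw [Real.log_mul (by positivity) (by positivity), Real.log_pow, Real.log_pow (n := 2)] at h3
    push_cast at h3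
    exact h3
  have h4 : Real.log x ≤ Real.log (max |(x : ℝ)| 1) :=
    Real.log_le_log hx0' (le_max_of_le_left (le_abs_self _))
  rw [max_eq_left hM] at h1
  clear hx'
  generalize Real.log (10 ^ 20) = L at *
  have h5 : (13 / 2 - C₁) * Real.log (height g) ≤ C₂ + L / 2 := by linarith
  have h6 : Real.log (height g) ≤ (C₂ + L / 2) / (13 / 2 - C₁) := by
    rw [le_div_iff₀ (by linarith)]
    linarith
  have h7 : (height g : ℝ) ≤ Real.exp ((C₂ + L / 2) / (13 / 2 - C₁)) :=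
    (Real.log_le_iff_le_exp hM0).1 h6
  have h8 : (K : ℝ) + 1 ≤ height g := by exact_mod_cast hfK
  linarith

end Pool.Agent.Results.MP_d88658_nt.CubicConstantThirteenHalves
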