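import Pool.Agent.H19.TW.Final

/-!
# The Hall–Lang bound for the primitive integral points on all quadratic twists of a cubic

Let `f = a X³ + b X² + c X + d` be an integral cubic polynomial with nonzero discriminant. The quadratic
twists of `y² = f(x)` are the curves `E_D : y² = D³ f(x / D)`, `D ≠ 0`. It is proved that for every `G` and
every `ε > 0` there is a constant `C` (it depends on `f`, `G`, `ε` but not on `D`) such that all integral
points `(x, y)` on ALL the curves `E_D` with `gcd (x, D) ≤ G` satisfy `|x| ≤ C |D| ^ (2 + ε)`. More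
generally, all points `(x / s², y / s³)` with `x` prime to `s` and `gcd (x, D) ≤ G` (if `a = 1`, these are all
the rational points of `E_D` with this property) satisfy `|x| ≤ C (s² |D|) ^ (2 + ε)`.
The exponent `2` is optimal: the curves `y² = x³ - D² x` have integral points with `gcd (x, D) = 1` and
`x > D² / 2` for infinitely many `D`.

Outline. In `R = ℤ[θ]`, `θ` the root of a monic cubic, `y² = k N(x - z θ)` gives, by the pigeonhole principle
for the lattice of the `β ∈ R` with `β(x / z) ≡ 0 mod y`, a small `β` with `β² = (x - z θ) α`; the `α` which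
occur lie in a finite set, and one can choose `β` with `N(β) ≠ 0` because nonzero elements of the lattice are
not too small and so only few of them vanish at a given root. The coefficient of `θ²` in `α* β²` vanishes, and
this conic is parametrised by binary quadratic forms. So `x`, `z` are values of binary quartic forms `F₀`, `F₁`
from a finite set; they are coprime and `F₁` has no multiple zeros. Now Roth's theorem gives
`|F₁(s, t)| ≫ max(|s|, |t|) ^ (2 - ε)`.
-/

namespace Pool.Agent.Results.MP_d88658_nt.PrimitivePointsOnAllTwists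

/-- The discriminant of `a X³ + b X² + c X + d`. -/
def disc (a b c d : ℤ) : ℤ :=
  b ^ 2 * c ^ 2 - 4 * a * c ^ 3 - 4 * b ^ 3 * d - 27 * a ^ 2 * d ^ 2 + 18 * a * b * c * d

/-- The value `D³ f(x / D)` of the twisted polynomial, `f = a X³ + b X² + c X + d`. -/
def twist (a b c d D x : ℤ) : ℤ := a * x ^ 3 + b * D * x ^ 2 + c * D ^ 2 * x + d * D ^ 3

theorem result :
    (∀ a b c d : ℤ, a ≠ 0 → disc a b c d ≠ 0 → ∀ (G : ℕ) (ε : ℝ), 0 < ε → ∃ C : ℝ,
      (∀ D x y : ℤ, D ≠ 0 → Int.gcd x D ≤ G → y ^ 2 = twist a b c d D x →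
        |(x : ℝ)| ≤ C * |(D : ℝ)| ^ (2 + ε)) ∧
      ∀ D s x y : ℤ, D ≠ 0 → s ≠ 0 → IsCoprime x s → Int.gcd x D ≤ G →
        ((y : ℚ) / s ^ 3) ^ 2 = a * ((x : ℚ) / s ^ 2) ^ 3 + b * D * ((x : ℚ) / s ^ 2) ^ 2 +
          c * D ^ 2 * ((x : ℚ) / s ^ 2) + d * D ^ 3 →
        |(x : ℝ)| ≤ C * ((s : ℝ) ^ 2 * |(D : ℝ)|) ^ (2 + ε)) ∧
    (∀ M : ℤ, ∃ D x y : ℤ, M ≤ D ∧ D ≠ 0 ∧ IsCoprime x D ∧ y ^ 2 = twist 1 0 (-1) 0 D x ∧
      D ^ 2 < 2 * x) := by
  refine ⟨fun a b c d ha hdisc G ε hε => ?_, fun M => ?_⟩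
  · obtain ⟨C, _, h⟩ := Pool.Agent.H19.TW.twists ha hdisc G hε
    refine ⟨C, fun D x y hD hG heq => h D x y hD hG ?_, ?_⟩
    · rw [heq]; unfold twist Pool.Agent.H19.TW.cg; ring
    · intro D s x y hD hs hxs hG heq
      have hsq : (s : ℚ) ≠ 0 := by exact_mod_cast hs
      have h1 : y ^ 2 = Pool.Agent.H19.TW.cg a b c d x (s ^ 2 * D) := by
        have h2 : (y : ℚ) ^ 2 = a * x ^ 3 + b * (s ^ 2 * D) * x ^ 2 + c * (s ^ 2 * D) ^ 2 * x +
            d * (s ^ 2 * D) ^ 3 := by
          field_simp at heq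
          linear_combination heq
        unfold Pool.Agent.H19.TW.cg
        exact_mod_cast h2
      have hgcd : Int.gcd x (s ^ 2 * D) = Int.gcd x D := by
        have hc : IsCoprime x (s ^ 2) := hxs.pow_right
        apply Nat.dvd_antisymm
        · apply Int.dvd_gcd (Int.gcd_dvd_left ..)
          have h3 : ((Int.gcd x (s ^ 2 * D) : ℕ) : ℤ) ∣ s ^ 2 * D := Int.gcd_dvd_right ..
          have h4 : IsCoprime ((Int.gcd x (s ^ 2 * D) : ℕ) : ℤ) (s ^ 2) :=
            IsCoprime.of_isCoprime_of_dvd_left hc (Int.gcd_dvd_left ..)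
          exact h4.dvd_of_dvd_mul_left h3
        · exact Int.gcd_dvd_gcd_mul_left_right ..
      have h3 := h (s ^ 2 * D) x y (mul_ne_zero (pow_ne_zero 2 hs) hD) (by rw [hgcd]; exact hG) h1
      have h4 : |((s ^ 2 * D : ℤ) : ℝ)| = (s : ℝ) ^ 2 * |(D : ℝ)| := by
        push_cast
        rw [abs_mul, abs_pow, sq_abs]
      rw [h4] at h3
      exact h3
  · obtain ⟨D, x, y, h1, h2, h3, h4, h5⟩ := Pool.Agent.H19.TW.optimal M
    exact ⟨D, x, y, h1, h2, h3, by rw [h4]; unfold twist; ring, h5⟩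

end Pool.Agent.Results.MP_d88658_nt.PrimitivePointsOnAllTwists
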